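import Pool.Agent.Q235.Wqo.Classify
import Mathlib.Analysis.Convex.Segment

/-!
# Noncrossing paths and the crossing criterion
-/

namespace Pool.Agent.Q235.Cover

open Pool.Agent.Q235.Wqo

/-- `v 0, …, v (t-1)` is a noncrossing path with vertices in `A`: at least two distinct points of
`A`, and any two edges share no point other than a common endpoint. -/
def IsPath (A : Finset (ℝ × ℝ)) (t : ℕ) (v : ℕ → ℝ × ℝ) : Prop :=
  2 ≤ t ∧ (∀ i < t, v i ∈ A) ∧ (∀ i < t, ∀ j < t, v i = v j → i = j) ∧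
    ∀ i j, i < j → j + 1 < t → ∀ x ∈ segment ℝ (v i) (v (i + 1)), x ∈ segment ℝ (v j) (v (j + 1)) →
      (x = v i ∨ x = v (i + 1)) ∧ (x = v j ∨ x = v (j + 1))

/-- The path `v 0, …, v (t-1)` contains the edge `p q`. -/
def Uses (t : ℕ) (v : ℕ → ℝ × ℝ) (p q : ℝ × ℝ) : Prop :=
  ∃ i, i + 1 < t ∧ ((v i = p ∧ v (i + 1) = q) ∨ (v i = q ∧ v (i + 1) = p))

/-- A covering of the complete geometric graph on `A` by `N` noncrossing paths. -/
def IsCover (A : Finset (ℝ × ℝ)) (N : ℕ) (t : Fin N → ℕ) (v : Fin N → ℕ → ℝ × ℝ) : Prop :=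
  (∀ a, IsPath A (t a) (v a)) ∧ ∀ p ∈ A, ∀ q ∈ A, p ≠ q → ∃ a, Uses (t a) (v a) p q

/-- The segments `p q` and `r s` cross. -/
def Crossing (p q r s : ℝ × ℝ) : Prop :=
  det3 p q r * det3 p q s < 0 ∧ det3 r s p * det3 r s q < 0

theorem det3_segment {r s x : ℝ × ℝ} (hx : x ∈ segment ℝ r s) : det3 r s x = 0 := by
  obtain ⟨a, b, ha, hb, hab, rfl⟩ := hx
  have hb' : b = 1 - a := by linarith
  subst hb'
  unfold det3
  simp only [Prod.fst_add, Prod.snd_add, Prod.smul_fst, Prod.smul_snd, smul_eq_mul]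
  ring

theorem exists_common {p q r s : ℝ × ℝ} (h : Crossing p q r s) :
    ∃ x, x ∈ segment ℝ p q ∧ x ∈ segment ℝ r s := by
  obtain ⟨h1, h2⟩ := h
  set α := det3 r s p with hα
  set β := det3 r s q with hβ
  set γ := det3 p q r with hγ
  set δ := det3 p q s with hδ
  have hD : α - β = δ - γ := by
    rw [hα, hβ, hγ, hδ]; unfold det3; ring
  have hne : α - β ≠ 0 := by
    intro h0
    have : α = β := by linarith
    rw [this] at h2
    nlinarith [mul_self_nonneg β]
  have hτ : 0 < α / (α - β) ∧ α / (α - β) < 1 := by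
    rcases lt_or_gt_of_ne hne with h3 | h3
    · have hα0 : α < 0 := by
        by_contra hcon
        push Not at hcon
        have : 0 < β := by linarith
        nlinarith
      have hβ0 : 0 < β := by
        by_contra hcon
        push Not at hcon
        nlinarith
      constructor
      · exact div_pos_of_neg_of_neg hα0 h3
      · rw [div_lt_one_of_neg h3]; linarith
    · have hα0 : 0 < α := by
        by_contra hcon
        push Not at hcon
        have : β < 0 := by linarith
        nlinarith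
      have hβ0 : β < 0 := by
        by_contra hcon
        push Not at hcon
        nlinarith
      constructor
      · exact div_pos hα0 h3
      · rw [div_lt_one h3]; linarith
  have hσ : 0 < -γ / (α - β) ∧ -γ / (α - β) < 1 := by
    rw [hD] at hne ⊢
    rcases lt_or_gt_of_ne hne with h3 | h3
    · have hγ0 : 0 < γ := by
        by_contra hcon
        push Not at hcon
        have : δ < 0 := by linarith
        nlinarith
      have hδ0 : δ < 0 := by
        by_contra hcon
        push Not at hcon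
        nlinarith
      constructor
      · exact div_pos_of_neg_of_neg (by linarith) h3
      · rw [div_lt_one_of_neg h3]; linarith
    · have hγ0 : γ < 0 := by
        by_contra hcon
        push Not at hcon
        have : 0 < δ := by linarith
        nlinarith
      have hδ0 : 0 < δ := by
        by_contra hcon
        push Not at hcon
        nlinarith
      constructor
      · exact div_pos (by linarith) h3
      · rw [div_lt_one h3]; linarith
  refine ⟨(p.1 + α / (α - β) * (q.1 - p.1), p.2 + α / (α - β) * (q.2 - p.2)),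
    ⟨1 - α / (α - β), α / (α - β), by linarith [hτ.2], hτ.1.le, by ring, ?_⟩,
    ⟨1 - -γ / (α - β), -γ / (α - β), by linarith [hσ.2], hσ.1.le, by ring, ?_⟩⟩
  · ext
    · simp only [Prod.fst_add, Prod.smul_fst, smul_eq_mul]; ring
    · simp only [Prod.snd_add, Prod.smul_snd, smul_eq_mul]; ring
  · have e1 : (α - β) * (p.1 - r.1) + α * (q.1 - p.1) + γ * (s.1 - r.1) = 0 := by
      rw [hα, hβ, hγ]; unfold det3; ring
    have e2 : (α - β) * (p.2 - r.2) + α * (q.2 - p.2) + γ * (s.2 - r.2) = 0 := by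
      rw [hα, hβ, hγ]; unfold det3; ring
    have f1 : (p.1 - r.1) + α / (α - β) * (q.1 - p.1) + γ / (α - β) * (s.1 - r.1) = 0 := by
      field_simp
      linarith
    have f2 : (p.2 - r.2) + α / (α - β) * (q.2 - p.2) + γ / (α - β) * (s.2 - r.2) = 0 := by
      field_simp
      linarith
    have e3 : -γ / (α - β) = -(γ / (α - β)) := neg_div _ _
    rw [e3]
    ext
    · simp only [Prod.fst_add, Prod.smul_fst, smul_eq_mul]; linarith
    · simp only [Prod.snd_add, Prod.smul_snd, smul_eq_mul]; linarith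

theorem Uses.symm {t : ℕ} {v : ℕ → ℝ × ℝ} {p q : ℝ × ℝ} (h : Uses t v p q) : Uses t v q p := by
  obtain ⟨i, hi, h⟩ := h
  exact ⟨i, hi, h.symm⟩

theorem endpoint_of {v : ℕ → ℝ × ℝ} {p q : ℝ × ℝ} {i : ℕ}
    (h : (v i = p ∧ v (i + 1) = q) ∨ (v i = q ∧ v (i + 1) = p)) :
    segment ℝ (v i) (v (i + 1)) = segment ℝ p q ∧
      ∀ x, (x = v i ∨ x = v (i + 1)) → (x = p ∨ x = q) := by
  rcases h with ⟨h1, h2⟩ | ⟨h1, h2⟩
  · rw [h1, h2]
    exact ⟨rfl, fun x hx => hx⟩
  · rw [h1, h2]
    exact ⟨segment_symm ℝ q p, fun x hx => hx.symm⟩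

/-- Crossing segments are never both edges of a noncrossing path. -/
theorem no_cross {A : Finset (ℝ × ℝ)} {t : ℕ} {v : ℕ → ℝ × ℝ} (hP : IsPath A t v)
    {p q r s : ℝ × ℝ} (h1 : Uses t v p q) (h2 : Uses t v r s) : ¬ Crossing p q r s := by
  intro hc
  obtain ⟨x, hx1, hx2⟩ := exists_common hc
  obtain ⟨i, hi, h1⟩ := h1
  obtain ⟨j, hj, h2⟩ := h2
  obtain ⟨s1, e1⟩ := endpoint_of h1
  obtain ⟨s2, e2⟩ := endpoint_of h2
  have hbad : ¬ (x = p ∨ x = q) := by
    rintro (h | h)
    · have := det3_segment hx2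
      rw [h] at this
      have h3 := hc.2
      rw [this, zero_mul] at h3
      exact lt_irrefl _ h3
    · have := det3_segment hx2
      rw [h] at this
      have h3 := hc.2
      rw [this, mul_zero] at h3
      exact lt_irrefl _ h3
  rw [← s1] at hx1
  rw [← s2] at hx2
  rcases lt_trichotomy i j with hij | hij | hij
  · exact hbad (e1 x (hP.2.2.2 i j hij hj x hx1 hx2).1)
  · subst hij
    -- the same edge
    have h3 := hc.1
    rcases h1 with ⟨a1, a2⟩ | ⟨a1, a2⟩ <;> rcases h2 with ⟨b1, b2⟩ | ⟨b1, b2⟩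
    · rw [← a1, ← a2, ← b1, ← b2, det3_self'', zero_mul] at h3
      exact lt_irrefl _ h3
    · rw [← a1, ← a2, ← b1, ← b2, det3_self', zero_mul] at h3
      exact lt_irrefl _ h3
    · rw [← a1, ← a2, ← b1, ← b2, det3_self', zero_mul] at h3
      exact lt_irrefl _ h3
    · rw [← a1, ← a2, ← b1, ← b2, det3_self'', zero_mul] at h3
      exact lt_irrefl _ h3
  · exact hbad (e1 x (hP.2.2.2 j i hij hi x hx2 hx1).2)

/-- In a path every vertex has at most two neighbours. -/
theorem nbr_le_two {A : Finset (ℝ × ℝ)} {t : ℕ} {v : ℕ → ℝ × ℝ} (hP : IsPath A t v)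
    {ι : Type} (F : Finset ι) (f : ι → ℝ × ℝ) (hf : ∀ a ∈ F, ∀ b ∈ F, f a = f b → a = b)
    (p : ℝ × ℝ) (h : ∀ a ∈ F, Uses t v p (f a)) : F.card ≤ 2 := by
  classical
  by_cases hF : F.Nonempty
  · obtain ⟨a₀, ha₀⟩ := hF
    obtain ⟨k, hk, hkp⟩ : ∃ k < t, v k = p := by
      obtain ⟨i, hi, h | h⟩ := h a₀ ha₀
      · exact ⟨i, by omega, h.1⟩
      · exact ⟨i + 1, hi, h.2⟩
    have hinj := hP.2.2.1
    have hsub : F.image f ⊆ {v (k - 1), v (k + 1)} := by
      intro x hx
      obtain ⟨a, ha, rfl⟩ := Finset.mem_image.1 hx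
      obtain ⟨i, hi, ⟨h1, h2⟩ | ⟨h1, h2⟩⟩ := h a ha
      · have : i = k := hinj i (by omega) k hk (h1.trans hkp.symm)
        subst this
        rw [← h2]
        simp
      · have : i + 1 = k := hinj (i + 1) hi k hk (h2.trans hkp.symm)
        subst this
        rw [← h1]
        simp
    have h1 := Finset.card_le_card hsub
    rw [Finset.card_image_of_injOn (fun a ha b hb hab => hf a ha b hb hab)] at h1
    exact le_trans h1 Finset.card_le_two
  · rw [Finset.not_nonempty_iff_eq_empty] at hF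
    rw [hF]; simp

end Pool.Agent.Q235.Cover
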