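import Pool.Agent.Q235.Cover.Base
import Mathlib.Data.Int.Interval
import Mathlib.Data.Finset.Prod
import Mathlib.Algebra.Order.BigOperators.Group.Finset
import Mathlib.Tactic.Positivity

/-!
# The point set

Integer points on the rows `0`, `1` and `80 g + 1`, bent slightly by `(x, y) ↦ (x, y + ε x²)`.
-/

namespace Pool.Agent.Q235.Cover

open Pool.Agent.Q235.Wqo

/-- integer orientation determinant -/
def jd (p q r : ℤ × ℤ) : ℤ := (q.1 - p.1) * (r.2 - p.2) - (q.2 - p.2) * (r.1 - p.1)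

/-- Vandermonde product of the first coordinates -/
def vd (p q r : ℤ × ℤ) : ℤ := (q.1 - p.1) * (r.1 - p.1) * (r.1 - q.1)

/-- the bending map -/
def bend (ε : ℝ) (p : ℤ × ℤ) : ℝ × ℝ := (p.1, p.2 + ε * (p.1 : ℝ) ^ 2)

theorem det3_bend (ε : ℝ) (p q r : ℤ × ℤ) :
    det3 (bend ε p) (bend ε q) (bend ε r) = (jd p q r : ℝ) + ε * (vd p q r : ℝ) := by
  unfold det3 bend jd vd
  push_cast
  ring

theorem det3_swap23_real (p q r : ℝ × ℝ) : det3 p q r = - det3 p r q := by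
  unfold det3; ring

/-- bottom row -/
def sI (z : ℤ) : ℤ × ℤ := (2 * z, 0)

/-- middle row -/
def tI (x : ℤ) : ℤ × ℤ := (2 * x, 1)

/-- far row -/
def bI (g c : ℤ) : ℤ × ℤ := ((2 * (g * c) + 1) * (80 * g + 1), 80 * g + 1)

/-- all integer points -/
def base (g : ℤ) : Finset (ℤ × ℤ) :=
  (Finset.Ico 0 (40 * g)).image sI ∪ (Finset.Ico 0 (40 * g)).image tI ∪
    (Finset.Icc (-37) 37).image (bI g)

theorem mem_base {g : ℤ} {p : ℤ × ℤ} : p ∈ base g ↔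
    (∃ z, 0 ≤ z ∧ z < 40 * g ∧ sI z = p) ∨ (∃ x, 0 ≤ x ∧ x < 40 * g ∧ tI x = p) ∨
      ∃ c, -37 ≤ c ∧ c ≤ 37 ∧ bI g c = p := by
  unfold base
  rw [Finset.mem_union, Finset.mem_union, Finset.mem_image, Finset.mem_image, Finset.mem_image,
    or_assoc]
  refine or_congr (exists_congr fun z => ?_) (or_congr (exists_congr fun z => ?_)
    (exists_congr fun z => ?_))
  · rw [Finset.mem_Ico, and_assoc]
  · rw [Finset.mem_Ico, and_assoc]
  · rw [Finset.mem_Icc, and_assoc]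

theorem exists_eps (B : Finset (ℤ × ℤ)) : ∃ ε : ℝ, 0 < ε ∧
    ∀ p ∈ B, ∀ q ∈ B, ∀ r ∈ B, |ε * (vd p q r : ℝ)| < 1 := by
  classical
  obtain ⟨K, hK⟩ := Finset.exists_le ((B ×ˢ (B ×ˢ B)).image
    (fun w => |(vd w.1 w.2.1 w.2.2 : ℝ)|))
  have hK' : ∀ p ∈ B, ∀ q ∈ B, ∀ r ∈ B, |(vd p q r : ℝ)| ≤ K := by
    intro p hp q hq r hr
    refine hK _ (Finset.mem_image.2 ⟨(p, q, r), ?_, rfl⟩)
    exact Finset.mem_product.2 ⟨hp, Finset.mem_product.2 ⟨hq, hr⟩⟩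
  have hpos : (0 : ℝ) < |K| + 1 := by positivity
  refine ⟨1 / (|K| + 1), by positivity, ?_⟩
  intro p hp q hq r hr
  have h1 := hK' p hp q hq r hr
  have h2 : K ≤ |K| := le_abs_self K
  have h3 : |1 / (|K| + 1) * (vd p q r : ℝ)| = |(vd p q r : ℝ)| / (|K| + 1) := by
    rw [abs_mul, abs_of_pos (by positivity : (0 : ℝ) < 1 / (|K| + 1))]
    ring
  rw [h3, div_lt_one hpos]
  linarith

section signs

variable {B : Finset (ℤ × ℤ)} {ε : ℝ}
  (hε : ∀ p ∈ B, ∀ q ∈ B, ∀ r ∈ B, |ε * (vd p q r : ℝ)| < 1)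

include hε

theorem bend_pos {p q r : ℤ × ℤ} (hp : p ∈ B) (hq : q ∈ B) (hr : r ∈ B) (h : 0 < jd p q r) :
    0 < det3 (bend ε p) (bend ε q) (bend ε r) := by
  rw [det3_bend]
  have h1 : (1 : ℝ) ≤ (jd p q r : ℝ) := by exact_mod_cast h
  have h2 := abs_lt.1 (hε p hp q hq r hr)
  linarith [h2.1]

theorem bend_neg {p q r : ℤ × ℤ} (hp : p ∈ B) (hq : q ∈ B) (hr : r ∈ B) (h : jd p q r < 0) :
    det3 (bend ε p) (bend ε q) (bend ε r) < 0 := by
  rw [det3_bend]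
  have h1 : (jd p q r : ℝ) ≤ -1 := by
    have : jd p q r ≤ -1 := by omega
    exact_mod_cast this
  have h2 := abs_lt.1 (hε p hp q hq r hr)
  linarith [h2.2]

theorem bend_ne {p q r : ℤ × ℤ} (hp : p ∈ B) (hq : q ∈ B) (hr : r ∈ B) (h : jd p q r ≠ 0) :
    det3 (bend ε p) (bend ε q) (bend ε r) ≠ 0 := by
  rcases lt_or_gt_of_ne h with h | h
  · exact (bend_neg hε hp hq hr h).ne
  · exact (bend_pos hε hp hq hr h).ne'

end signs

theorem jd_stb (g z x c : ℤ) (hg : 1 ≤ g) (hz0 : 0 ≤ z) (hz : z < 40 * g) :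
    (x ≤ z + g * c → 0 < jd (sI z) (bI g c) (tI x)) ∧
      (z + g * c + 1 ≤ x → jd (sI z) (bI g c) (tI x) < 0) := by
  have e : jd (sI z) (bI g c) (tI x) =
      (80 * g + 1) * (2 * (g * c) + 1 - 2 * x + 2 * z) - 2 * z := by
    unfold jd sI tI bI
    simp only
    ring
  rw [e]
  constructor
  · intro h
    have h1 : (80 * g + 1) * 1 ≤ (80 * g + 1) * (2 * (g * c) + 1 - 2 * x + 2 * z) :=
      mul_le_mul_of_nonneg_left (by omega) (by omega)
    omega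
  · intro h
    have h1 : (80 * g + 1) * (2 * (g * c) + 1 - 2 * x + 2 * z) ≤ (80 * g + 1) * (-1) :=
      mul_le_mul_of_nonneg_left (by omega) (by omega)
    omega

theorem jd_stb_ne (g z x c : ℤ) (hg : 1 ≤ g) (hz0 : 0 ≤ z) (hz : z < 40 * g) :
    jd (sI z) (bI g c) (tI x) ≠ 0 := by
  rcases le_or_gt x (z + g * c) with h | h
  · exact ((jd_stb g z x c hg hz0 hz).1 h).ne'
  · exact ((jd_stb g z x c hg hz0 hz).2 (by omega)).ne

theorem jd_row {p q r : ℤ × ℤ} (h1 : p.2 = q.2) (h2 : p.1 ≠ q.1) (h3 : r.2 ≠ p.2) :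
    jd p q r ≠ 0 := by
  unfold jd
  rw [h1, sub_self, zero_mul, sub_zero]
  refine mul_ne_zero (sub_ne_zero.2 h2.symm) (sub_ne_zero.2 ?_)
  rw [← h1]; exact h3

theorem base_gen {g : ℤ} (hg : 1 ≤ g) {ε : ℝ} (hε0 : 0 < ε)
    (hε : ∀ p ∈ base g, ∀ q ∈ base g, ∀ r ∈ base g, |ε * (vd p q r : ℝ)| < 1)
    {p q r : ℤ × ℤ} (hp : p ∈ base g) (hq : q ∈ base g) (hr : r ∈ base g)
    (hpq : p ≠ q) (hpr : p ≠ r) (hqr : q ≠ r) :
    det3 (bend ε p) (bend ε q) (bend ε r) ≠ 0 := by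
  by_cases h1 : p.2 = q.2
  · have h1' : p.1 ≠ q.1 := fun h => hpq (Prod.ext h h1)
    by_cases h2 : r.2 = p.2
    · have h2' : r.1 ≠ p.1 := fun h => hpr (Prod.ext h h2).symm
      have h3' : r.1 ≠ q.1 := fun h => hqr (Prod.ext h (h2.trans h1)).symm
      rw [det3_bend]
      have e1 : jd p q r = 0 := by
        unfold jd
        rw [h2, h1]; ring
      have e2 : vd p q r ≠ 0 := by
        unfold vd
        exact mul_ne_zero (mul_ne_zero (sub_ne_zero.2 h1'.symm) (sub_ne_zero.2 h2'))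
          (sub_ne_zero.2 h3')
      rw [e1, Int.cast_zero, zero_add]
      exact mul_ne_zero hε0.ne' (by exact_mod_cast e2)
    · exact bend_ne hε hp hq hr (jd_row h1 h1' h2)
  by_cases h2 : p.2 = r.2
  · have h2' : p.1 ≠ r.1 := fun h => hpr (Prod.ext h h2)
    rw [det3_swap23_real]
    exact neg_ne_zero.2 (bend_ne hε hp hr hq (jd_row h2 h2' (fun h => h1 h.symm)))
  by_cases h3 : q.2 = r.2
  · have h3' : q.1 ≠ r.1 := fun h => hqr (Prod.ext h h3)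
    rw [← det3_rot]
    exact bend_ne hε hq hr hp (jd_row h3 h3' h1)
  -- three different rows
  rcases mem_base.1 hp with ⟨z, hz0, hz, rfl⟩ | ⟨x, hx0, hx, rfl⟩ | ⟨c, hc0, hc, rfl⟩
  · rcases mem_base.1 hq with ⟨z', _, _, rfl⟩ | ⟨x', hx0, hx, rfl⟩ | ⟨c', hc0, hc, rfl⟩
    · exact absurd rfl h1
    · rcases mem_base.1 hr with ⟨z', _, _, rfl⟩ | ⟨x', _, _, rfl⟩ | ⟨c', hc0, hc, rfl⟩
      · exact absurd rfl h2
      · exact absurd rfl h3
      · rw [det3_swap23_real]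
        exact neg_ne_zero.2 (bend_ne hε hp hr hq (jd_stb_ne g z _ _ hg hz0 hz))
    · rcases mem_base.1 hr with ⟨z', _, _, rfl⟩ | ⟨x', _, _, rfl⟩ | ⟨c', hc0, hc, rfl⟩
      · exact absurd rfl h2
      · exact bend_ne hε hp hq hr (jd_stb_ne g z _ _ hg hz0 hz)
      · exact absurd rfl h3
  · rcases mem_base.1 hq with ⟨z, hz0, hz, rfl⟩ | ⟨x', hx0, hx, rfl⟩ | ⟨c', hc0, hc, rfl⟩
    · rcases mem_base.1 hr with ⟨z', _, _, rfl⟩ | ⟨x', _, _, rfl⟩ | ⟨c', hc0, hc, rfl⟩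
      · exact absurd rfl h3
      · exact absurd rfl h2
      · rw [← det3_rot]
        exact bend_ne hε hq hr hp (jd_stb_ne g z _ _ hg hz0 hz)
    · exact absurd rfl h1
    · rcases mem_base.1 hr with ⟨z, hz0, hz, rfl⟩ | ⟨x', _, _, rfl⟩ | ⟨c', hc0, hc, rfl⟩
      · have := bend_ne hε hr hq hp (jd_stb_ne g z _ _ hg hz0 hz)
        intro h0
        apply this
        rw [← neg_eq_zero, ← h0]
        unfold det3; ring
      · exact absurd rfl h2
      · exact absurd rfl h3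
  · rcases mem_base.1 hq with ⟨z, hz0, hz, rfl⟩ | ⟨x', hx0, hx, rfl⟩ | ⟨c', hc0, hc, rfl⟩
    · rcases mem_base.1 hr with ⟨z', _, _, rfl⟩ | ⟨x', _, _, rfl⟩ | ⟨c', hc0, hc, rfl⟩
      · exact absurd rfl h3
      · have := bend_ne hε hq hp hr (jd_stb_ne g z _ _ hg hz0 hz)
        rw [det3_swap]
        exact neg_ne_zero.2 this
      · exact absurd rfl h2
    · rcases mem_base.1 hr with ⟨z, hz0, hz, rfl⟩ | ⟨x', _, _, rfl⟩ | ⟨c', hc0, hc, rfl⟩
      · have := bend_ne hε hr hp hq (jd_stb_ne g z _ _ hg hz0 hz)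
        rw [← det3_rot, ← det3_rot]
        exact this
      · exact absurd rfl h3
      · exact absurd rfl h2
    · exact absurd rfl h1

end Pool.Agent.Q235.Cover
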