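import Pool.Agent.Q235.Cover.Config
import Mathlib.Algebra.Order.BigOperators.Group.Finset
import Mathlib.Data.Finset.Max

/-!
# The weighted count of special edges in one noncrossing path
-/

namespace Pool.Agent.Q235.Cover

open Pool.Agent.Q235.Wqo

theorem card_sum_le (D : Finset (ℤ × ℤ))
    (hA : ∀ w ∈ D, ∀ w' ∈ D, w.1 < w'.1 → w.2 ≤ w'.2) (lo hi : ℤ)
    (h : ∀ w ∈ D, lo ≤ w.1 + w.2 ∧ w.1 + w.2 ≤ hi) (hlh : lo ≤ hi + 1) :
    (D.card : ℤ) ≤ hi + 1 - lo := by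
  have h1 : D.card ≤ (Finset.Icc lo hi).card := by
    refine Finset.card_le_card_of_injOn (fun w => w.1 + w.2) ?_ ?_
    · intro w hw
      exact Finset.mem_coe.2 (Finset.mem_Icc.2 (h w hw))
    · intro w hw w' hw' hww
      have hw1 : w ∈ D := hw
      have hw2 : w' ∈ D := hw'
      have hww' : w.1 + w.2 = w'.1 + w'.2 := hww
      rcases lt_trichotomy w.1 w'.1 with h2 | h2 | h2
      · have := hA w hw1 w' hw2 h2
        omega
      · exact Prod.ext h2 (by omega)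
      · have := hA w' hw2 w hw1 h2
        omega
  rw [Int.card_Icc] at h1
  omega

/-- The combinatorial inequality. -/
theorem weight_le (g C : ℤ) (hg : 1 ≤ g) (D R : Finset (ℤ × ℤ))
    (hA : ∀ w ∈ D, ∀ w' ∈ D, w.1 < w'.1 → w.2 ≤ w'.2)
    (hD : ∀ w ∈ D, C - 2 * g ≤ w.1 + w.2 ∧ w.1 + w.2 ≤ C + 2 * g)
    (hR : ∀ w ∈ R, C - 2 * g ≤ 2 * w.2 + g * w.1 ∧ 2 * w.2 + g * w.1 ≤ C + 2 * g)
    (hB1 : ∀ w ∈ D, ∀ r ∈ R, w.2 < r.2 → w.1 ≤ r.2 + g * r.1)
    (hB2 : ∀ w ∈ D, ∀ r ∈ R, r.2 < w.2 → r.2 + g * r.1 + 1 ≤ w.1)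
    (hC : ∀ r ∈ R, ∀ r' ∈ R, r.1 < r'.1 → r.2 ≤ r'.2)
    (dD : ∀ y, (D.filter (fun w => w.2 = y)).card ≤ 2)
    (dR : ∀ c, (R.filter (fun w => w.1 = c)).card ≤ 2) :
    2 * (D.card : ℤ) + g * (R.card : ℤ) ≤ 10 * g + 6 := by
  classical
  have hall := card_sum_le D hA _ _ hD (by omega)
  rcases R.eq_empty_or_nonempty with hR0 | hR0
  · rw [hR0, Finset.card_empty]
    simp only [Nat.cast_zero, mul_zero, add_zero]
    omega
  set cs := R.image Prod.fst with hcs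
  have hcs0 : cs.Nonempty := hR0.image _
  set c := cs.min' hcs0 with hc
  set c' := cs.max' hcs0 with hc'
  obtain ⟨r, hr, hrc⟩ := Finset.mem_image.1 (cs.min'_mem hcs0)
  obtain ⟨r', hr', hrc'⟩ := Finset.mem_image.1 (cs.max'_mem hcs0)
  rw [← hc] at hrc
  rw [← hc'] at hrc'
  have hcc : c ≤ c' := cs.min'_le_max' hcs0
  have hcard1 : R.card ≤ 2 * cs.card := by
    refine Finset.card_le_mul_card_image R 2 ?_
    intro a _
    exact dR a
  have hcard2 : cs.card ≤ (Finset.Icc c c').card := by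
    refine Finset.card_le_card ?_
    intro a ha
    exact Finset.mem_Icc.2 ⟨cs.min'_le a ha, cs.le_max' a ha⟩
  rw [Int.card_Icc] at hcard2
  have hRle : (R.card : ℤ) ≤ 2 * (c' - c + 1) := by omega
  have hgR : g * (R.card : ℤ) ≤ g * (2 * (c' - c + 1)) :=
    mul_le_mul_of_nonneg_left hRle (by omega)
  rcases hcc.eq_or_lt with h0 | h0
  · rw [← h0] at hgR
    have : g * (2 * (c - c + 1)) = 2 * g := by ring
    omega
  · have hz : r.2 ≤ r'.2 := hC r hr r' hr' (by rw [hrc, hrc']; exact h0)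
    have hr1 := hR r hr
    have hr2 := hR r' hr'
    rw [hrc] at hr1
    rw [hrc'] at hr2
    -- split D
    set L := D.filter (fun w => w.1 ≤ r.2 + g * c) with hL
    set U := D.filter (fun w => r'.2 + g * c' + 1 ≤ w.1) with hU
    set Mi := D.filter (fun w => r.2 + g * c < w.1 ∧ w.1 < r'.2 + g * c' + 1) with hMi
    have hsub : D ⊆ L ∪ (U ∪ Mi) := by
      intro w hw
      simp only [hL, hU, hMi, Finset.mem_union, Finset.mem_filter]
      rcases le_or_gt w.1 (r.2 + g * c) with h1 | h1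
      · exact Or.inl ⟨hw, h1⟩
      · rcases le_or_gt (r'.2 + g * c' + 1) w.1 with h2 | h2
        · exact Or.inr (Or.inl ⟨hw, h2⟩)
        · exact Or.inr (Or.inr ⟨hw, h1, h2⟩)
    have hc1 := Finset.card_le_card hsub
    have hc2 := Finset.card_union_le L (U ∪ Mi)
    have hc3 := Finset.card_union_le U Mi
    have hLc : (L.card : ℤ) ≤ (2 * r.2 + g * c) + 1 - (C - 2 * g) := by
      refine card_sum_le L (fun w hw w' hw' => hA w (Finset.mem_filter.1 hw).1 w'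
        (Finset.mem_filter.1 hw').1) _ _ ?_ (by omega)
      intro w hw
      obtain ⟨hw1, hw2⟩ := Finset.mem_filter.1 hw
      refine ⟨(hD w hw1).1, ?_⟩
      have : w.2 ≤ r.2 := by
        by_contra hcon
        have := hB2 w hw1 r hr (by omega)
        rw [hrc] at this
        omega
      omega
    have hUc : (U.card : ℤ) ≤ (C + 2 * g) + 1 - (2 * r'.2 + g * c' + 1) := by
      refine card_sum_le U (fun w hw w' hw' => hA w (Finset.mem_filter.1 hw).1 w'
        (Finset.mem_filter.1 hw').1) _ _ ?_ (by omega)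
      intro w hw
      obtain ⟨hw1, hw2⟩ := Finset.mem_filter.1 hw
      refine ⟨?_, (hD w hw1).2⟩
      have : r'.2 ≤ w.2 := by
        by_contra hcon
        have := hB1 w hw1 r' hr' (by omega)
        rw [hrc'] at this
        omega
      omega
    have hMc : (Mi.card : ℤ) ≤ 2 * (r'.2 - r.2 + 1) := by
      have h1 : Mi.card ≤ 2 * (Mi.image Prod.snd).card := by
        refine Finset.card_le_mul_card_image Mi 2 ?_
        intro a _
        refine le_trans (Finset.card_le_card ?_) (dD a)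
        intro w hw
        obtain ⟨hw1, hw2⟩ := Finset.mem_filter.1 hw
        exact Finset.mem_filter.2 ⟨(Finset.mem_filter.1 hw1).1, hw2⟩
      have h2 : (Mi.image Prod.snd).card ≤ (Finset.Icc r.2 r'.2).card := by
        refine Finset.card_le_card ?_
        intro a ha
        obtain ⟨w, hw, rfl⟩ := Finset.mem_image.1 ha
        obtain ⟨hw1, hw2, hw3⟩ := Finset.mem_filter.1 hw
        refine Finset.mem_Icc.2 ⟨?_, ?_⟩
        · by_contra hcon
          have := hB1 w hw1 r hr (by omega)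
          rw [hrc] at this
          omega
        · by_contra hcon
          have := hB2 w hw1 r' hr' (by omega)
          rw [hrc'] at this
          omega
      rw [Int.card_Icc] at h2
      omega
    have e1 : g * (2 * (c' - c + 1)) = 2 * (g * c') - 2 * (g * c) + 2 * g := by ring
    rw [e1] at hgR
    omega

section onepath

variable {g : ℤ} {ε : ℝ}

/-- the point set -/
noncomputable def ptset (g : ℤ) (ε : ℝ) : Finset (ℝ × ℝ) := (base g).image (bend ε)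

theorem sI_mem {z : ℤ} (h0 : 0 ≤ z) (h : z < 40 * g) : sI z ∈ base g :=
  mem_base.2 (Or.inl ⟨z, h0, h, rfl⟩)

theorem tI_mem {z : ℤ} (h0 : 0 ≤ z) (h : z < 40 * g) : tI z ∈ base g :=
  mem_base.2 (Or.inr (Or.inl ⟨z, h0, h, rfl⟩))

theorem bI_mem {c : ℤ} (h0 : -37 ≤ c) (h : c ≤ 37) : bI g c ∈ base g :=
  mem_base.2 (Or.inr (Or.inr ⟨c, h0, h, rfl⟩))

/-- Crossing from integer determinants. -/
theorem crossing_of (hε : ∀ p ∈ base g, ∀ q ∈ base g, ∀ r ∈ base g, |ε * (vd p q r : ℝ)| < 1)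
    {p q r s : ℤ × ℤ} (hp : p ∈ base g) (hq : q ∈ base g) (hr : r ∈ base g) (hs : s ∈ base g)
    (h : (0 < jd p q r ∧ jd p q s < 0) ∨ (jd p q r < 0 ∧ 0 < jd p q s))
    (h' : (0 < jd r s p ∧ jd r s q < 0) ∨ (jd r s p < 0 ∧ 0 < jd r s q)) :
    Crossing (bend ε p) (bend ε q) (bend ε r) (bend ε s) := by
  constructor
  · rcases h with ⟨h1, h2⟩ | ⟨h1, h2⟩
    · exact mul_neg_of_pos_of_neg (bend_pos hε hp hq hr h1) (bend_neg hε hp hq hs h2)
    · exact mul_neg_of_neg_of_pos (bend_neg hε hp hq hr h1) (bend_pos hε hp hq hs h2)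
  · rcases h' with ⟨h1, h2⟩ | ⟨h1, h2⟩
    · exact mul_neg_of_pos_of_neg (bend_pos hε hr hs hp h1) (bend_neg hε hr hs hq h2)
    · exact mul_neg_of_neg_of_pos (bend_neg hε hr hs hp h1) (bend_pos hε hr hs hq h2)

theorem bend_inj {p q : ℤ × ℤ} (h : bend ε p = bend ε q) : p = q := by
  have h1 : (p.1 : ℝ) = q.1 := congrArg Prod.fst h
  have h2 : (p.2 : ℝ) + ε * (p.1 : ℝ) ^ 2 = q.2 + ε * (q.1 : ℝ) ^ 2 := congrArg Prod.snd h
  rw [h1] at h2
  have h3 : (p.2 : ℝ) = q.2 := by linarith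
  exact Prod.ext (by exact_mod_cast h1) (by exact_mod_cast h3)

open scoped Classical in
/-- special chords of the path -/
noncomputable def Dp (g : ℤ) (ε : ℝ) (t : ℕ) (v : ℕ → ℝ × ℝ) : Finset (ℤ × ℤ) :=
  (Finset.Ico 0 (40 * g) ×ˢ Finset.Ico 0 (40 * g)).filter (fun w =>
    (40 * g - 1 - 2 * g ≤ w.1 + w.2 ∧ w.1 + w.2 ≤ 40 * g - 1 + 2 * g) ∧
      Uses t v (bend ε (sI w.2)) (bend ε (tI w.1)))

open scoped Classical in
/-- special rays of the path -/
noncomputable def Rp (g : ℤ) (ε : ℝ) (t : ℕ) (v : ℕ → ℝ × ℝ) : Finset (ℤ × ℤ) :=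
  (Finset.Icc (-37 : ℤ) 37 ×ˢ Finset.Ico 0 (40 * g)).filter (fun w =>
    (40 * g - 1 - 2 * g ≤ 2 * w.2 + g * w.1 ∧ 2 * w.2 + g * w.1 ≤ 40 * g - 1 + 2 * g) ∧
      Uses t v (bend ε (sI w.2)) (bend ε (bI g w.1)))

theorem mem_Dp {t : ℕ} {v : ℕ → ℝ × ℝ} {w : ℤ × ℤ} : w ∈ Dp g ε t v ↔
    ((0 ≤ w.1 ∧ w.1 < 40 * g) ∧ 0 ≤ w.2 ∧ w.2 < 40 * g) ∧
    (40 * g - 1 - 2 * g ≤ w.1 + w.2 ∧ w.1 + w.2 ≤ 40 * g - 1 + 2 * g) ∧
      Uses t v (bend ε (sI w.2)) (bend ε (tI w.1)) := by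
  classical
  unfold Dp
  rw [Finset.mem_filter, Finset.mem_product, Finset.mem_Ico, Finset.mem_Ico]

theorem mem_Rp {t : ℕ} {v : ℕ → ℝ × ℝ} {w : ℤ × ℤ} : w ∈ Rp g ε t v ↔
    ((-37 ≤ w.1 ∧ w.1 ≤ 37) ∧ 0 ≤ w.2 ∧ w.2 < 40 * g) ∧
    (40 * g - 1 - 2 * g ≤ 2 * w.2 + g * w.1 ∧ 2 * w.2 + g * w.1 ≤ 40 * g - 1 + 2 * g) ∧
      Uses t v (bend ε (sI w.2)) (bend ε (bI g w.1)) := by
  classical
  unfold Rp
  rw [Finset.mem_filter, Finset.mem_product, Finset.mem_Icc, Finset.mem_Ico]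

attribute [irreducible] Dp Rp

theorem path_weight (hg : 1 ≤ g)
    (hε : ∀ p ∈ base g, ∀ q ∈ base g, ∀ r ∈ base g, |ε * (vd p q r : ℝ)| < 1)
    {t : ℕ} {v : ℕ → ℝ × ℝ} (hP : IsPath (ptset g ε) t v) :
    2 * ((Dp g ε t v).card : ℤ) + g * ((Rp g ε t v).card : ℤ) ≤ 10 * g + 6 := by
  classical
  refine weight_le g (40 * g - 1) hg _ _ ?_ ?_ ?_ ?_ ?_ ?_ ?_ ?_
  · intro w hw w' hw' hlt
    obtain ⟨⟨⟨a1, a2⟩, a3, a4⟩, -, a5⟩ := mem_Dp.1 hw
    obtain ⟨⟨⟨b1, b2⟩, b3, b4⟩, -, b5⟩ := mem_Dp.1 hw'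
    by_contra hcon
    push Not at hcon
    refine no_cross hP a5 b5 (crossing_of hε (sI_mem a3 a4) (tI_mem a1 a2) (sI_mem b3 b4)
      (tI_mem b1 b2) (Or.inl ⟨?_, ?_⟩) (Or.inr ⟨?_, ?_⟩)) <;>
    · unfold jd sI tI
      simp only
      ring_nf
      omega
  · intro w hw
    exact (mem_Dp.1 hw).2.1
  · intro w hw
    exact (mem_Rp.1 hw).2.1
  · intro w hw r hr hlt
    obtain ⟨⟨⟨a1, a2⟩, a3, a4⟩, -, a5⟩ := mem_Dp.1 hw
    obtain ⟨⟨⟨b1, b2⟩, b3, b4⟩, -, b5⟩ := mem_Rp.1 hr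
    by_contra hcon
    push Not at hcon
    refine no_cross hP b5 a5 (crossing_of hε (sI_mem b3 b4) (bI_mem b1 b2) (sI_mem a3 a4)
      (tI_mem a1 a2) (Or.inl ⟨?_, (jd_stb g _ _ _ hg b3 b4).2 (by omega)⟩) (Or.inr ⟨?_, ?_⟩))
    · have e : jd (sI r.2) (bI g r.1) (sI w.2) = 2 * ((80 * g + 1) * (r.2 - w.2)) := by
        unfold jd sI bI
        simp only
        ring
      rw [e]
      have := mul_pos (show (0 : ℤ) < 80 * g + 1 by omega) (show (0 : ℤ) < r.2 - w.2 by omega)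
      omega
    · unfold jd sI tI
      simp only
      omega
    · have e : jd (sI w.2) (tI w.1) (bI g r.1) =
          (80 * g + 1) * (2 * w.1 - 2 * w.2 - 2 * (g * r.1) - 1) + 2 * w.2 := by
        unfold jd sI tI bI
        simp only
        ring
      rw [e]
      have := mul_pos (show (0 : ℤ) < 80 * g + 1 by omega)
        (show (0 : ℤ) < 2 * w.1 - 2 * w.2 - 2 * (g * r.1) - 1 by omega)
      omega
  · intro w hw r hr hlt
    obtain ⟨⟨⟨a1, a2⟩, a3, a4⟩, -, a5⟩ := mem_Dp.1 hw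
    obtain ⟨⟨⟨b1, b2⟩, b3, b4⟩, -, b5⟩ := mem_Rp.1 hr
    by_contra hcon
    push Not at hcon
    refine no_cross hP b5 a5 (crossing_of hε (sI_mem b3 b4) (bI_mem b1 b2) (sI_mem a3 a4)
      (tI_mem a1 a2) (Or.inr ⟨?_, (jd_stb g _ _ _ hg b3 b4).1 (by omega)⟩) (Or.inl ⟨?_, ?_⟩))
    · have e : jd (sI r.2) (bI g r.1) (sI w.2) = -(2 * ((80 * g + 1) * (w.2 - r.2))) := by
        unfold jd sI bI
        simp only
        ring
      rw [e]
      have := mul_pos (show (0 : ℤ) < 80 * g + 1 by omega) (show (0 : ℤ) < w.2 - r.2 by omega)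
      omega
    · unfold jd sI tI
      simp only
      omega
    · have e : jd (sI w.2) (tI w.1) (bI g r.1) =
          -((80 * g + 1) * (2 * (g * r.1) + 1 + 2 * w.2 - 2 * w.1 - 1)) -
            (80 * g + 1 - 2 * w.2) := by
        unfold jd sI tI bI
        simp only
        ring
      rw [e]
      have := mul_pos (show (0 : ℤ) < 80 * g + 1 by omega)
        (show (0 : ℤ) < 2 * (g * r.1) + 1 + 2 * w.2 - 2 * w.1 - 1 by omega)
      omega
  · intro r hr r' hr' hlt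
    obtain ⟨⟨⟨a1, a2⟩, a3, a4⟩, -, a5⟩ := mem_Rp.1 hr
    obtain ⟨⟨⟨b1, b2⟩, b3, b4⟩, -, b5⟩ := mem_Rp.1 hr'
    by_contra hcon
    push Not at hcon
    have hH : (0 : ℤ) < 80 * g + 1 := by omega
    have hc : (0 : ℤ) < r'.1 - r.1 := by omega
    have hz : (0 : ℤ) < r.2 - r'.2 := by omega
    have m1 := mul_pos hH hz
    have m2 := mul_pos (mul_pos hH hH) (mul_pos (show (0 : ℤ) < g by omega) hc)
    refine no_cross hP a5 b5 (crossing_of hε (sI_mem a3 a4) (bI_mem a1 a2) (sI_mem b3 b4)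
      (bI_mem b1 b2) (Or.inl ⟨?_, ?_⟩) (Or.inr ⟨?_, ?_⟩))
    · have e : jd (sI r.2) (bI g r.1) (sI r'.2) = 2 * ((80 * g + 1) * (r.2 - r'.2)) := by
        unfold jd sI bI
        simp only
        ring
      rw [e]; omega
    · have e : jd (sI r.2) (bI g r.1) (bI g r'.1) =
          -(2 * ((80 * g + 1) * (80 * g + 1) * (g * (r'.1 - r.1)))) := by
        unfold jd sI bI
        simp only
        ring
      rw [e]; omega
    · have e : jd (sI r'.2) (bI g r'.1) (sI r.2) = -(2 * ((80 * g + 1) * (r.2 - r'.2))) := by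
        unfold jd sI bI
        simp only
        ring
      rw [e]; omega
    · have e : jd (sI r'.2) (bI g r'.1) (bI g r.1) =
          2 * ((80 * g + 1) * (80 * g + 1) * (g * (r'.1 - r.1))) := by
        unfold jd sI bI
        simp only
        ring
      rw [e]; omega
  · intro y
    refine nbr_le_two hP _ (fun w => bend ε (tI w.1)) ?_ (bend ε (sI y)) ?_
    · intro a ha b hb hab
      have h1 := bend_inj hab
      have h2 : 2 * a.1 = 2 * b.1 := congrArg Prod.fst h1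
      exact Prod.ext (by omega) ((Finset.mem_filter.1 ha).2.trans (Finset.mem_filter.1 hb).2.symm)
    · intro a ha
      obtain ⟨h1, h2⟩ := Finset.mem_filter.1 ha
      rw [← h2]
      exact (mem_Dp.1 h1).2.2
  · intro c
    refine nbr_le_two hP _ (fun w => bend ε (sI w.2)) ?_ (bend ε (bI g c)) ?_
    · intro a ha b hb hab
      have h1 := bend_inj hab
      have h2 : 2 * a.2 = 2 * b.2 := congrArg Prod.fst h1
      exact Prod.ext ((Finset.mem_filter.1 ha).2.trans (Finset.mem_filter.1 hb).2.symm) (by omega)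
    · intro a ha
      obtain ⟨h1, h2⟩ := Finset.mem_filter.1 ha
      rw [← h2]
      exact (mem_Rp.1 h1).2.2.symm

end onepath

end Pool.Agent.Q235.Cover
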