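import Pool.Agent.Q235.Cover.Count

/-!
# More than half of `n` noncrossing paths are needed
-/

namespace Pool.Agent.Q235.Cover

open Pool.Agent.Q235.Wqo

theorem base_card (g : ℕ) (hg : 1 ≤ g) : (base (g : ℤ)).card = 80 * g + 75 := by
  classical
  have i1 : Function.Injective sI := by
    intro a b h
    have h2 : 2 * a = 2 * b := congrArg Prod.fst h
    omega
  have i2 : Function.Injective tI := by
    intro a b h
    have h2 : 2 * a = 2 * b := congrArg Prod.fst h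
    omega
  have i3 : Function.Injective (bI (g : ℤ)) := by
    intro a b h
    have h2 : (2 * ((g : ℤ) * a) + 1) * (80 * (g : ℤ) + 1) =
        (2 * ((g : ℤ) * b) + 1) * (80 * (g : ℤ) + 1) := congrArg Prod.fst h
    have h3 : (80 * (g : ℤ) + 1) ≠ 0 := by omega
    have h4 := mul_right_cancel₀ h3 h2
    have h5 : (g : ℤ) * a = (g : ℤ) * b := by omega
    exact mul_left_cancel₀ (by omega) h5
  unfold base
  rw [Finset.card_union_of_disjoint, Finset.card_union_of_disjoint,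
    Finset.card_image_of_injective _ i1, Finset.card_image_of_injective _ i2,
    Finset.card_image_of_injective _ i3]
  · rw [Int.card_Ico, Int.card_Icc]
    omega
  · rw [Finset.disjoint_left]
    intro p hp hq
    obtain ⟨a, -, rfl⟩ := Finset.mem_image.1 hp
    obtain ⟨b, -, hb⟩ := Finset.mem_image.1 hq
    have := congrArg Prod.snd hb
    simp [sI, tI] at this
  · rw [Finset.disjoint_left]
    intro p hp hq
    obtain ⟨b, -, hb⟩ := Finset.mem_image.1 hq
    rcases Finset.mem_union.1 hp with hp | hp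
    · obtain ⟨a, -, rfl⟩ := Finset.mem_image.1 hp
      have : (80 * (g : ℤ) + 1) = 0 := congrArg Prod.snd hb
      omega
    · obtain ⟨a, -, rfl⟩ := Finset.mem_image.1 hp
      have : (80 * (g : ℤ) + 1) = 1 := congrArg Prod.snd hb
      omega

theorem ptset_card (g : ℕ) (hg : 1 ≤ g) (ε : ℝ) : (ptset (g : ℤ) ε).card = 80 * g + 75 := by
  unfold ptset
  rw [Finset.card_image_of_injective _ (fun p q h => bend_inj h), base_card g hg]

theorem ptset_gen {g : ℤ} (hg : 1 ≤ g) {ε : ℝ} (hε0 : 0 < ε)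
    (hε : ∀ p ∈ base g, ∀ q ∈ base g, ∀ r ∈ base g, |ε * (vd p q r : ℝ)| < 1) :
    Gen (ptset g ε) := by
  intro p hp q hq r hr hpq hpr hqr
  unfold ptset at hp hq hr
  obtain ⟨p, hp', rfl⟩ := Finset.mem_image.1 hp
  obtain ⟨q, hq', rfl⟩ := Finset.mem_image.1 hq
  obtain ⟨r, hr', rfl⟩ := Finset.mem_image.1 hr
  rw [Ne, orient_eq_zero]
  exact base_gen hg hε0 hε hp' hq' hr' (fun h => hpq (by rw [h])) (fun h => hpr (by rw [h]))
    (fun h => hqr (by rw [h]))

/-- The total count. -/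
theorem cover_count (g : ℕ) (hg : 1 ≤ g) {ε : ℝ}
    (hε : ∀ p ∈ base (g : ℤ), ∀ q ∈ base (g : ℤ), ∀ r ∈ base (g : ℤ), |ε * (vd p q r : ℝ)| < 1)
    (N : ℕ) (t : Fin N → ℕ) (v : Fin N → ℕ → ℝ × ℝ) (hc : IsCover (ptset (g : ℤ) ε) N t v) :
    438 * (g : ℤ) * g + 72 * g ≤ N * (10 * g + 6) := by
  classical
  have hg' : (1 : ℤ) ≤ g := by exact_mod_cast hg
  -- chords
  have hD : 36 * (g : ℤ) * (4 * g + 1) ≤ ∑ a : Fin N, ((Dp (g : ℤ) ε (t a) (v a)).card : ℤ) := by
    set E : Finset (ℤ × ℤ) := (Finset.Ico (2 * (g : ℤ)) (38 * g) ×ˢ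
      Finset.Ico 0 (4 * (g : ℤ) + 1)).image (fun w => (w.1, 38 * (g : ℤ) - 1 - w.1 + w.2)) with hE
    have hEc : (E.card : ℤ) = 36 * (g : ℤ) * (4 * g + 1) := by
      rw [hE, Finset.card_image_of_injective, Finset.card_product, Int.card_Ico, Int.card_Ico]
      · push_cast
        rw [Int.toNat_of_nonneg (by omega), Int.toNat_of_nonneg (by omega)]
        ring
      · intro a b h
        have h1 : a.1 = b.1 := (Prod.mk.inj h).1
        have h2 : 38 * (g : ℤ) - 1 - a.1 + a.2 = 38 * (g : ℤ) - 1 - b.1 + b.2 :=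
          (Prod.mk.inj h).2
        exact Prod.ext h1 (by omega)
    have hsub : E ⊆ Finset.univ.biUnion (fun a : Fin N => Dp (g : ℤ) ε (t a) (v a)) := by
      intro w hw
      obtain ⟨u, hu, rfl⟩ := Finset.mem_image.1 hw
      obtain ⟨hu1, hu2⟩ := Finset.mem_product.1 hu
      rw [Finset.mem_Ico] at hu1 hu2
      have m1 : sI (38 * (g : ℤ) - 1 - u.1 + u.2) ∈ base (g : ℤ) := sI_mem (by omega) (by omega)
      have m2 : tI u.1 ∈ base (g : ℤ) := tI_mem (by omega) (by omega)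
      obtain ⟨a, ha⟩ := hc.2 (bend ε (sI (38 * (g : ℤ) - 1 - u.1 + u.2)))
        (Finset.mem_image.2 ⟨_, m1, rfl⟩) (bend ε (tI u.1)) (Finset.mem_image.2 ⟨_, m2, rfl⟩)
        (fun h => by
          have := congrArg Prod.snd (bend_inj h)
          simp [sI, tI] at this)
      refine Finset.mem_biUnion.2 ⟨a, Finset.mem_univ a, mem_Dp.2 ⟨⟨⟨?_, ?_⟩, ?_, ?_⟩,
        ⟨?_, ?_⟩, ha⟩⟩ <;> simp only <;> omega
    have h1 := le_trans (Finset.card_le_card hsub) Finset.card_biUnion_le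
    rw [← hEc]
    exact_mod_cast h1
  -- rays
  have hR : 150 * (g : ℤ) ≤ ∑ a : Fin N, ((Rp (g : ℤ) ε (t a) (v a)).card : ℤ) := by
    obtain ⟨Kc, hK1, hK2⟩ : ∃ Kc : Finset ℤ, (∀ c, c ∈ Kc ↔ -37 ≤ c ∧ c ≤ 37) ∧ Kc.card = 75 :=
      ⟨Finset.Icc (-37) 37, fun c => Finset.mem_Icc, by rw [Int.card_Icc]; rfl⟩
    set E : Finset (ℤ × ℤ) := (Kc ×ˢ Finset.Ico 0 (2 * (g : ℤ))).image
        (fun w => (w.1, (38 * (g : ℤ) - g * w.1) / 2 + w.2)) with hE
    have hEc : (E.card : ℤ) = 150 * (g : ℤ) := by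
      rw [hE, Finset.card_image_of_injective, Finset.card_product, Int.card_Ico, hK2]
      · push_cast
        rw [Int.toNat_of_nonneg (by omega)]
        ring
      · intro a b h
        have h1 : a.1 = b.1 := (Prod.mk.inj h).1
        have h2 : (38 * (g : ℤ) - g * a.1) / 2 + a.2 = (38 * (g : ℤ) - g * b.1) / 2 + b.2 :=
          (Prod.mk.inj h).2
        rw [h1] at h2
        exact Prod.ext h1 (by omega)
    have hsub : E ⊆ Finset.univ.biUnion (fun a : Fin N => Rp (g : ℤ) ε (t a) (v a)) := by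
      intro w hw
      obtain ⟨u, hu, rfl⟩ := Finset.mem_image.1 hw
      obtain ⟨hu1, hu2⟩ := Finset.mem_product.1 hu
      rw [hK1] at hu1
      rw [Finset.mem_Ico] at hu2
      have b1 : (g : ℤ) * u.1 ≤ g * 37 := mul_le_mul_of_nonneg_left hu1.2 (by omega)
      have b2 : (g : ℤ) * (-37) ≤ g * u.1 := mul_le_mul_of_nonneg_left hu1.1 (by omega)
      have m1 : sI ((38 * (g : ℤ) - g * u.1) / 2 + u.2) ∈ base (g : ℤ) :=
        sI_mem (by omega) (by omega)
      have m2 : bI (g : ℤ) u.1 ∈ base (g : ℤ) := bI_mem (by omega) (by omega)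
      obtain ⟨a, ha⟩ := hc.2 (bend ε (sI ((38 * (g : ℤ) - g * u.1) / 2 + u.2)))
        (Finset.mem_image.2 ⟨_, m1, rfl⟩) (bend ε (bI (g : ℤ) u.1))
        (Finset.mem_image.2 ⟨_, m2, rfl⟩)
        (fun h => by
          have : (0 : ℤ) = 80 * (g : ℤ) + 1 := congrArg Prod.snd (bend_inj h)
          omega)
      refine Finset.mem_biUnion.2 ⟨a, Finset.mem_univ a, mem_Rp.2 ⟨⟨⟨?_, ?_⟩, ?_, ?_⟩,
        ⟨?_, ?_⟩, ha⟩⟩ <;> simp only <;> omega
    have h1 := le_trans (Finset.card_le_card hsub) Finset.card_biUnion_le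
    rw [← hEc]
    exact_mod_cast h1
  have hsum : ∑ a : Fin N, (2 * ((Dp (g : ℤ) ε (t a) (v a)).card : ℤ) +
      g * ((Rp (g : ℤ) ε (t a) (v a)).card : ℤ)) ≤ ∑ _a : Fin N, (10 * (g : ℤ) + 6) :=
    Finset.sum_le_sum fun a _ => path_weight hg' hε (hc.1 a)
  rw [Finset.sum_add_distrib, ← Finset.mul_sum, ← Finset.mul_sum, Finset.sum_const,
    Finset.card_univ, Fintype.card_fin, nsmul_eq_mul] at hsum
  have hgR := mul_le_mul_of_nonneg_left hR (show (0 : ℤ) ≤ g by omega)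
  nlinarith

/-- **More than `(1/2 + 1/25) n` noncrossing paths can be needed.** -/
theorem many_paths : ∃ c : ℝ, 1 / 2 < c ∧ ∀ n₀ : ℕ, ∃ n ≥ n₀, ∃ A : Finset (ℝ × ℝ),
    A.card = n ∧ Gen A ∧ ∀ (N : ℕ) (t : Fin N → ℕ) (v : Fin N → ℕ → ℝ × ℝ),
      IsCover A N t v → c * n ≤ N := by
  refine ⟨27 / 50, by norm_num, fun n₀ => ?_⟩
  set g : ℕ := n₀ + 100 with hgdef
  have hg : 1 ≤ g := by omega
  have hg' : (1 : ℤ) ≤ g := by exact_mod_cast hg
  obtain ⟨ε, hε0, hε⟩ := exists_eps (base (g : ℤ))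
  refine ⟨80 * g + 75, by omega, ptset (g : ℤ) ε, ptset_card g hg ε, ptset_gen hg' hε0 hε, ?_⟩
  intro N t v hc
  have h1 := cover_count g hg hε N t v hc
  have h2 : (438 * (g : ℝ) * g + 72 * g) ≤ N * (10 * g + 6) := by exact_mod_cast h1
  have h3 : (100 : ℝ) ≤ g := by
    have : 100 ≤ g := by omega
    exact_mod_cast this
  by_contra hcon
  push Not at hcon
  push_cast at hcon
  have h4 : (0 : ℝ) < 10 * g + 6 := by positivity
  have h5 := mul_lt_mul_of_pos_right hcon h4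
  nlinarith

end Pool.Agent.Q235.Cover
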